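import Mathlib

/-!
# Connected graphs of upper propagation time one that are not standard fast joins
-/

set_option autoImplicit false

namespace Pool.Agent.Results.MP_81d777_co.DoubledCrown

variable {V : Type}

/-- The vertices forced in one round when exactly the vertices of `S` are blue: `w` is white and
is the only white neighbour of some blue `u`. -/
def forced (G : SimpleGraph V) (S : Set V) : Set V :=
  {w | w ∉ S ∧ ∃ u ∈ S, G.Adj u w ∧ ∀ x, G.Adj u x → x ∉ S → x = w}

/-- `B^{[i]}`: the blue vertices after `i` rounds. -/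
def blue (G : SimpleGraph V) (B : Set V) : ℕ → Set V
  | 0 => B
  | i + 1 => blue G B i ∪ forced G (blue G B i)

/-- `B^{(i)}`: `B^{(0)} = B` and `B^{(i+1)}` is the set of vertices forced in round `i + 1`. -/
def newly (G : SimpleGraph V) (B : Set V) : ℕ → Set V
  | 0 => B
  | i + 1 => forced G (blue G B i)

/-- `p` is the largest integer with `B^{(p)}` nonempty. -/
def IsPt (G : SimpleGraph V) (B : Set V) (p : ℕ) : Prop :=
  (newly G B p).Nonempty ∧ ∀ q, p < q → newly G B q = ∅

/-- Forcing sets. -/
def IsForcing (G : SimpleGraph V) (B : Set V) : Prop := ∃ p, blue G B p = Set.univ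

/-- Minimal forcing sets. -/
def IsMinForcing (G : SimpleGraph V) (B : Set V) : Prop :=
  IsForcing G B ∧ ∀ C, C ⊂ B → ¬ IsForcing G C

/-- The upper standard propagation time of `G` is `m`. -/
def UpperPt (G : SimpleGraph V) (m : ℕ) : Prop :=
  IsGreatest {p | ∃ B, IsMinForcing G B ∧ IsPt G B p} m

/-- `G[S]` is edgeless with at least two vertices, or the disjoint union of two complete graphs
with at least two vertices each. -/
def IsFactor (G : SimpleGraph V) (S : Set V) : Prop :=
  (2 ≤ S.ncard ∧ ∀ x ∈ S, ∀ y ∈ S, ¬ G.Adj x y) ∨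
    ∃ T ⊆ S, 2 ≤ T.ncard ∧ 2 ≤ (S \ T).ncard ∧
      ∀ x ∈ S, ∀ y ∈ S, x ≠ y → (G.Adj x y ↔ (x ∈ T ↔ y ∈ T))

/-- Standard fast joins: complete graphs on at least two vertices, and joins of `t ≥ 2` graphs each
of which is `n K_1` or `K_n ∪ K_m` (`n, m ≥ 2`); `part v` is the index of the factor containing
`v`. -/
def IsStandardFastJoin (G : SimpleGraph V) : Prop :=
  (2 ≤ (Set.univ : Set V).ncard ∧ ∀ x y, x ≠ y → G.Adj x y) ∨
    ∃ (t : ℕ) (part : V → Fin t), 2 ≤ t ∧ (∀ x y, part x ≠ part y → G.Adj x y) ∧
      ∀ i, IsFactor G {v | part v = i}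

/-- The crown graph `K_{k,k}` minus a perfect matching with every vertex doubled: vertices are
`(i, s, c)` (index, side, copy); `(i,s,c)` and `(j,s',c')` are adjacent iff `s ≠ s'`, `i ≠ j`. -/
def crown (k : ℕ) : SimpleGraph (Fin k × Bool × Bool) where
  Adj x y := x.1 ≠ y.1 ∧ x.2.1 ≠ y.2.1
  symm := ⟨fun _ _ h => ⟨h.1.symm, h.2.symm⟩⟩
  loopless := ⟨fun _ h => h.1 rfl⟩

theorem blue_mono (G : SimpleGraph V) (B : Set V) (i : ℕ) : B ⊆ blue G B i := by
  induction i with
  | zero => exact subset_rfl
  | succ i ih => exact ih.trans Set.subset_union_left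

/-- A set `F` of white vertices such that no vertex has exactly one neighbour in `F` stays
white. -/
theorem fort (G : SimpleGraph V) (B F : Set V) (hF : ∀ x ∈ F, x ∉ B)
    (h : ∀ u, ∀ w ∈ F, G.Adj u w → ∃ x ∈ F, G.Adj u x ∧ x ≠ w) :
    ∀ i, ∀ x ∈ F, x ∉ blue G B i := by
  intro i
  induction i with
  | zero => exact hF
  | succ i ih =>
    intro x hx hb
    rcases hb with hb | hb
    · exact ih x hx hb
    · obtain ⟨_, u, _, hux, hu⟩ := hb
      obtain ⟨y, hy, huy, hne⟩ := h u x hx hux
      exact hne (hu y huy (ih y hy))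

variable {k : ℕ}

theorem no_twins (B : Set (Fin k × Bool × Bool)) (hB : IsForcing (crown k) B) (i : Fin k)
    (s : Bool) : ∃ c, (i, s, c) ∈ B := by
  by_contra hc
  push Not at hc
  obtain ⟨p, hp⟩ := hB
  have key := fort (crown k) B {x | x.1 = i ∧ x.2.1 = s} (by
      rintro ⟨j, t, c⟩ ⟨h1, h2⟩
      simp only at h1 h2
      subst h1 h2
      exact hc c) (by
      rintro u ⟨j, t, c⟩ ⟨h1, h2⟩ hadj
      simp only at h1 h2
      subst h1 h2
      refine ⟨(j, t, !c), ⟨rfl, rfl⟩, hadj, ?_⟩
      intro h
      simp only [Prod.mk.injEq, true_and] at h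
      cases c <;> simp at h)
    p (i, s, true) ⟨rfl, rfl⟩
  rw [hp] at key
  exact key (Set.mem_univ _)

theorem two_indices (B : Set (Fin k × Bool × Bool)) (hB : IsForcing (crown k) B) (s : Bool)
    (i j l : Fin k) (hij : i ≠ j) (hil : i ≠ l) (hjl : j ≠ l) (ci cj cl : Bool)
    (hi : (i, s, ci) ∉ B) (hj : (j, s, cj) ∉ B) (hl : (l, s, cl) ∉ B) : False := by
  obtain ⟨p, hp⟩ := hB
  have key := fort (crown k) B {(i, s, ci), (j, s, cj), (l, s, cl)} (by
      rintro x (rfl | rfl | rfl)
      · exact hi
      · exact hj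
      · exact hl) (by
      rintro ⟨m, t, c⟩ w hw hadj
      have ht : t ≠ s := by
        rcases hw with rfl | rfl | rfl <;> exact hadj.2
      -- two of the three indices differ from `m`
      rcases hw with rfl | rfl | rfl
      · by_cases hm : m = j
        · refine ⟨(l, s, cl), Or.inr (Or.inr rfl), ⟨?_, ht⟩, ?_⟩
          · simp only; rw [hm]; exact hjl
          · intro h
            simp only [Prod.mk.injEq] at h
            exact hil h.1.symm
        · refine ⟨(j, s, cj), Or.inr (Or.inl rfl), ⟨hm, ht⟩, ?_⟩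
          intro h
          simp only [Prod.mk.injEq] at h
          exact hij h.1.symm
      · by_cases hm : m = i
        · refine ⟨(l, s, cl), Or.inr (Or.inr rfl), ⟨?_, ht⟩, ?_⟩
          · simp only; rw [hm]; exact hil
          · intro h
            simp only [Prod.mk.injEq] at h
            exact hjl h.1.symm
        · refine ⟨(i, s, ci), Or.inl rfl, ⟨hm, ht⟩, ?_⟩
          intro h
          simp only [Prod.mk.injEq] at h
          exact hij h.1
      · by_cases hm : m = i
        · refine ⟨(j, s, cj), Or.inr (Or.inl rfl), ⟨?_, ht⟩, ?_⟩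
          · simp only; rw [hm]; exact hij
          · intro h
            simp only [Prod.mk.injEq] at h
            exact hjl h.1
        · refine ⟨(i, s, ci), Or.inl rfl, ⟨hm, ht⟩, ?_⟩
          intro h
          simp only [Prod.mk.injEq] at h
          exact hil h.1)
    p (i, s, ci) (Or.inl rfl)
  rw [hp] at key
  exact key (Set.mem_univ _)

/-- Every forcing set colours everything in the first round. -/
theorem one_round (hk : 3 ≤ k) (B : Set (Fin k × Bool × Bool)) (hB : IsForcing (crown k) B) :
    blue (crown k) B 1 = Set.univ := by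
  rw [Set.eq_univ_iff_forall]
  rintro ⟨i, s, c⟩
  by_cases hw : (i, s, c) ∈ B
  · exact Or.inl hw
  right
  refine ⟨hw, ?_⟩
  -- the index `m`
  obtain ⟨m, hmi, hm⟩ : ∃ m : Fin k, m ≠ i ∧ ∀ l d, l ≠ m → (l, s, d) ∉ B → l = i := by
    by_cases hex : ∃ j d, j ≠ i ∧ (j, s, d) ∉ B
    · obtain ⟨j, d, hj, hjB⟩ := hex
      refine ⟨j, hj, fun l e hlj hl => ?_⟩
      by_contra hli
      exact two_indices B hB s i j l hj.symm (Ne.symm hli) (Ne.symm hlj) c d e hw hjB hl
    · push Not at hex
      obtain ⟨m, hm⟩ : ∃ m : Fin k, m ≠ i := by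
        have : Nontrivial (Fin k) := Fin.nontrivial_iff_two_le.2 (by omega)
        exact exists_ne i
      refine ⟨m, hm, fun l e _ hl => ?_⟩
      by_contra hli
      exact hl (hex l e hli)
  obtain ⟨c', hc'⟩ := no_twins B hB m (!s)
  refine ⟨(m, !s, c'), hc', ⟨hmi, ?_⟩, ?_⟩
  · simp
  · rintro ⟨l, t, d⟩ hadj hl
    have ht : t = s := by
      have := hadj.2
      simp only at this
      cases t <;> cases s <;> simp_all
    subst ht
    have hli : l = i := hm l d (Ne.symm hadj.1) hl
    subst hli
    -- both copies cannot be white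
    obtain ⟨c0, hc0⟩ := no_twins B hB l t
    have hl' : (l, t, d) ∉ B := hl
    have hd : d = c := by
      cases d <;> cases c <;> cases c0 <;> first | rfl | exact absurd hc0 hl' | exact absurd hc0 hw
    rw [hd]

theorem crown_connected (hk : 3 ≤ k) : (crown k).Connected := by
  have hthird : ∀ i j : Fin k, ∃ l, l ≠ i ∧ l ≠ j := by
    intro i j
    by_contra hc
    push Not at hc
    have h1 : (Finset.univ : Finset (Fin k)) ⊆ {i, j} := by
      intro l _
      rw [Finset.mem_insert, Finset.mem_singleton]
      by_cases h : l = i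
      · exact Or.inl h
      · exact Or.inr (hc l h)
    have h2 := Finset.card_le_card h1
    rw [Finset.card_univ, Fintype.card_fin] at h2
    have h3 : ({i, j} : Finset (Fin k)).card ≤ 2 := Finset.card_le_two
    omega
  have hsame : ∀ (i j : Fin k) (s c d : Bool), (crown k).Reachable (i, s, c) (j, s, d) := by
    intro i j s c d
    obtain ⟨l, hli, hlj⟩ := hthird i j
    have h1 : (crown k).Adj (i, s, c) (l, !s, true) := ⟨hli.symm, by simp⟩
    have h2 : (crown k).Adj (l, !s, true) (j, s, d) := ⟨hlj, by simp⟩
    exact h1.reachable.trans h2.reachable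
  have : Nonempty (Fin k × Bool × Bool) := ⟨(⟨0, by omega⟩, true, true)⟩
  refine ⟨?_⟩
  rintro ⟨i, s, c⟩ ⟨j, t, d⟩
  by_cases hst : s = t
  · subst hst
    exact hsame i j s c d
  · obtain ⟨l, hlj, _⟩ := hthird j j
    have h1 : (crown k).Adj (l, s, true) (j, t, d) := ⟨hlj, hst⟩
    exact (hsame i l s c true).trans h1.reachable

theorem crown_not_join (hk : 3 ≤ k) : ¬ IsStandardFastJoin (crown k) := by
  rintro (⟨_, h⟩ | ⟨t, part, ht, hjoin, hfac⟩)
  · have := h (⟨0, by omega⟩, true, true) (⟨0, by omega⟩, true, false) (by simp)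
    exact this.1 rfl
  · -- non-adjacent vertices lie in the same part
    have hsame : ∀ x y, ¬ (crown k).Adj x y → part x = part y := by
      intro x y h
      by_contra hc
      exact h (hjoin x y hc)
    have hall : ∀ x, part x = part (⟨0, by omega⟩, true, true) := by
      rintro ⟨i, s, c⟩
      have h1 : part (i, s, c) = part (i, true, true) := hsame _ _ (fun h => h.1 rfl)
      have h2 : part (i, true, true) = part (⟨0, by omega⟩, true, true) :=
        hsame _ _ (fun h => h.2 rfl)
      exact h1.trans h2
    -- some part is empty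
    obtain ⟨a, ha⟩ : ∃ a : Fin t, a ≠ part (⟨0, by omega⟩, true, true) := by
      have : Nontrivial (Fin t) := Fin.nontrivial_iff_two_le.2 ht
      exact exists_ne _
    have hempty : {v | part v = a} = (∅ : Set (Fin k × Bool × Bool)) := by
      rw [Set.eq_empty_iff_forall_notMem]
      intro v hv
      exact ha (hv.symm.trans (hall v))
    rcases hfac a with ⟨h2, _⟩ | ⟨T, hT, h2, _⟩
    · rw [hempty, Set.ncard_empty] at h2
      omega
    · rw [hempty] at hT
      rw [Set.subset_empty_iff.1 hT, Set.ncard_empty] at h2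
      omega

theorem crown_upper (hk : 3 ≤ k) : UpperPt (crown k) 1 := by
  -- a forcing set different from everything has propagation time one
  have hpt : ∀ B, IsForcing (crown k) B → B ≠ Set.univ →
      IsPt (crown k) B 1 ∧ ∀ p, IsPt (crown k) B p → p = 1 := by
    intro B hB hne
    have h1 := one_round hk B hB
    have hblue : ∀ q, 1 ≤ q → blue (crown k) B q = Set.univ := by
      intro q hq
      induction q, hq using Nat.le_induction with
      | base => exact h1
      | succ q _ ih =>
        change blue (crown k) B q ∪ forced (crown k) (blue (crown k) B q) = Set.univ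
        rw [ih, Set.univ_union]
    have hempty : ∀ q, 1 < q → newly (crown k) B q = ∅ := by
      intro q hq
      obtain ⟨q', rfl⟩ : ∃ q', q = q' + 1 := ⟨q - 1, by omega⟩
      change forced (crown k) (blue (crown k) B q') = ∅
      rw [hblue q' (by omega), Set.eq_empty_iff_forall_notMem]
      rintro x ⟨hx, _⟩
      exact hx (Set.mem_univ _)
    have hne1 : (newly (crown k) B 1).Nonempty := by
      obtain ⟨x, hx⟩ := (Set.ne_univ_iff_exists_notMem B).1 hne
      have hx1 : x ∈ blue (crown k) B 1 := by rw [h1]; exact Set.mem_univ _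
      rcases hx1 with h | h
      · exact absurd h hx
      · exact ⟨x, h⟩
    refine ⟨⟨hne1, hempty⟩, ?_⟩
    rintro p ⟨hp1, hp2⟩
    rcases Nat.lt_trichotomy p 1 with h | h | h
    · rw [hp2 1 h] at hne1
      exact absurd hne1 Set.not_nonempty_empty
    · exact h
    · rw [hempty p h] at hp1
      exact absurd hp1 Set.not_nonempty_empty
  -- the whole vertex set is not a minimal forcing set
  have huniv : ∀ B, IsMinForcing (crown k) B → B ≠ Set.univ := by
    rintro B ⟨_, hB2⟩ rfl
    refine hB2 {x | x ≠ (⟨0, by omega⟩, true, true)} ?_ ?_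
    · refine ⟨Set.subset_univ _, fun h => ?_⟩
      exact h (Set.mem_univ (⟨0, by omega⟩, true, true)) rfl
    · refine ⟨1, ?_⟩
      rw [Set.eq_univ_iff_forall]
      intro x
      by_cases hx : x = (⟨0, by omega⟩, true, true)
      · right
        subst hx
        refine ⟨fun h => h rfl, (⟨1, by omega⟩, false, true), ?_, ⟨?_, ?_⟩, ?_⟩
        · intro h
          simp only [Prod.mk.injEq] at h
          exact absurd h.2.1 (by simp)
        · intro h
          simp only [Fin.mk.injEq] at h
          omega
        · simp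
        · intro y _ hy
          by_contra hc
          exact hy hc
      · exact Or.inl hx
  constructor
  · -- a minimal forcing set exists
    have hfin : {B : Set (Fin k × Bool × Bool) | IsForcing (crown k) B}.Finite := Set.toFinite _
    obtain ⟨B, hB⟩ := hfin.exists_minimal ⟨Set.univ, ⟨0, rfl⟩⟩
    have hBmin : IsMinForcing (crown k) B := by
      refine ⟨hB.1, fun C hC hCf => ?_⟩
      exact hC.2 (hB.2 hCf hC.1)
    exact ⟨B, hBmin, (hpt B hB.1 (huniv B hBmin)).1⟩
  · rintro p ⟨B, hB, hp⟩
    exact ((hpt B hB.1 (huniv B hB)).2 p hp).le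

/-- For every `k ≥ 3` the crown graph on `2k` vertices with every vertex doubled is connected and
has upper propagation time one, but is not a standard fast join. -/
theorem result (k : ℕ) (hk : 3 ≤ k) :
    (crown k).Connected ∧ UpperPt (crown k) 1 ∧ ¬ IsStandardFastJoin (crown k) :=
  ⟨crown_connected hk, crown_upper hk, crown_not_join hk⟩

end Pool.Agent.Results.MP_81d777_co.DoubledCrown
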